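import Pool.Agent.U554.TW.Ab
import Pool.Agent.U554.TW.Main
import Mathlib.RingTheory.SimpleModule.Basic
import Mathlib.FieldTheory.AbsoluteGaloisGroup
import Mathlib.NumberTheory.NumberField.Basic

/-!
# The Grothendieck-Serre conjecture and explicit cubic hypersurfaces over `ℚ`

Let `p` be a prime number. A representation of a group `G` over `ℚ_p` is a module `M` over the group
algebra `ℚ_p[G]`; it is semisimple (every stable subspace has a stable complement) if and only if the
module is semisimple: `Semisimple M`.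

* `H F i V`, for a number field `F` and a smooth proper scheme `V` over `F`, is the étale cohomology
  `H^i(V̄, ℚ_p)` with the action of `G_F`.
* `O b m X`, for the separated schemes `X` of finite type over `ℚ`, is the part of weight zero
  `gr^W_0 H_{m + 2 b}(X̄, ℚ_p(b))` of the Borel-Moore homology with the action of `G_ℚ`. For `X`
  smooth of pure dimension `d` it is `gr^W_0 H^{2 j - m}(X̄, ℚ_p(j))`, `j = d - b`; if `X` is proper in
  addition, it is `H^{2 j}(X̄, ℚ_p(j))` for `m = 0` and zero for `m ≠ 0`.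

`IsEtale` lists the known properties which are used. Let `S` be a finite set of triples `(i, j, l)`,
`i ≤ a₁`, `j ≤ a₂`, `l ≤ a₃`, and `T` the trilinear form `∑_{(i, j, l) ∈ S} x_i y_j z_l`.

* `bilS T` is the closed subvariety `Z_T` of `𝔸^(a₂ + a₃)` given by the `a₁` bilinear equations
  `∂T/∂x_i (y, z) = 0`;
* `tripS ℚ S` is the smooth affine hypersurface `Y_S : T(x, y, z) = 1` of dimension
  `d = a₁ + a₂ + a₃ - 1`; `O (d - j) 1 (tripS ℚ S)` is `gr^W_0 H^{2 j - 1}(Ȳ_S, ℚ_p(j))`.
-/

set_option autoImplicit false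

open CategoryTheory AlgebraicGeometry Pool.Agent.Y116.UV Pool.Agent.U554.TU
  Pool.Agent.U554.TW

universe w w'

namespace Pool.Agent.Results.MP_8f1292_ag.CubicHypersurfaces

/-- The representation `M` of `G` over `K` is semisimple. -/
def Semisimple {K G : Type} [Field K] [Group G] (M : ModuleCat.{w} (MonoidAlgebra K G)) : Prop :=
  IsSemisimpleModule (MonoidAlgebra K G) M

section

variable {p : ℕ} [Fact p.Prime]

/-- The known properties of the étale cohomology groups: `O` has the properties `IsAbTheory` (long exact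
sequences, homotopy invariance, ...; `gr^W_0` is an exact functor) and

* `point`: `H_i(Spec ℚ) = 0` for `i ≠ 0`;
* `torsor`: homotopy invariance for affine bundles;
* `jouanolou`: smooth separated schemes of finite type have affine bundles with affine total space
  (Jouanolou, Thomason);
* `pure`: `gr^W_0 H_{m + 2 b}(X)(-b)` is a direct factor of `H_{2 b'}(V)(-b')` for some `b'` and some
  smooth projective `V` (Deligne, André: it belongs to a motive for motivated cycles, and the category
  of these motives is semisimple);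
* `compare`: `H_{2 b}(V)(-b)` is the sum of the groups `H^{2 (d - b)}(V_d)(d - b)`, where `V_d` is the
  part of dimension `d` of the smooth proper scheme `V`;
* `restrict`: let `V` be smooth and proper over the number field `F`, and let `V'` be the scheme `V`
  over `ℚ` for `i` even, and `V × E` over `ℚ` for `i` odd, `E` an elliptic curve. The cohomology of `V'`
  is the representation of `G_ℚ` induced by the cohomology of `V` or of `V × E`, and the latter has the
  direct factor `H^i(V) ⊗ H^1(E)`. The induced representation of `M` is semisimple if and only if `M`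
  is, and if `M ⊗ H^1(E)` is semisimple, then so are `M ⊗ H^1(E) ⊗ H^1(E)^∨` (Chevalley) and its direct
  factor `M`. -/
structure IsEtale
    (H : ∀ (F : Type) [Field F] [NumberField F], ℕ → Sch F →
      ModuleCat.{w'} (MonoidAlgebra ℚ_[p] (Field.absoluteGaloisGroup F)))
    (O : ℤ → ℤ → Sch ℚ → ModuleCat.{w} (MonoidAlgebra ℚ_[p] (Field.absoluteGaloisGroup ℚ))) :
    Prop extends IsAbTheory O where
  point : ∀ b m : ℤ, m + 2 * b ≠ 0 → Limits.IsZero (O b m (aff ℚ ℚ))
  torsor : BundleInvariant
    (abRel (ModuleCat.{w} (MonoidAlgebra ℚ_[p] (Field.absoluteGaloisGroup ℚ)))) O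
  jouanolou : ∀ X : Sch ℚ, FT True X → Smooth X.hom → HasAffineBundle X
  pure : ∀ (b m : ℤ) (X : Sch ℚ), FT True X → ∃ (V : Sch ℚ) (b' : ℤ), FT True V ∧ Smooth V.hom ∧
    IsProper V.hom ∧ Nonempty (Retract (O b m X) (O b' 0 V))
  compare : ∀ (V : Sch ℚ) (b : ℤ), FT True V → Smooth V.hom → IsProper V.hom →
    (∀ i : ℕ, Semisimple (H ℚ (2 * i) V)) → Semisimple (O b 0 V)
  restrict : ∀ (F : Type) [Field F] [NumberField F] (V : Sch F) (i : ℕ), FT True V →
    Smooth V.hom → IsProper V.hom → ∃ (V' : Sch ℚ) (b : ℤ), FT True V' ∧ Smooth V'.hom ∧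
      IsProper V'.hom ∧ (Semisimple (O b 0 V') → Semisimple (H F i V))

end

lemma inherited {K G : Type} [Field K] [Group G] :
    Inherited (abRel (ModuleCat.{w} (MonoidAlgebra K G))) Semisimple := by
  rintro X Y ⟨r⟩ hY
  have hY' : IsSemisimpleModule (MonoidAlgebra K G) Y := hY
  refine IsSemisimpleModule.of_injective r.i.hom ?_
  refine Function.LeftInverse.injective (g := r.r.hom) fun x => ?_
  have h := congrArg (fun f => f.hom x) r.retract
  simpa only [ModuleCat.hom_comp, LinearMap.comp_apply, ModuleCat.hom_id, LinearMap.id_apply] using h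

/-- **The Grothendieck-Serre conjecture: bilinear equations over `ℤ`, and the cubic hypersurfaces
`∑_{(i, j, l) ∈ S} x_i y_j z_l = 1` over `ℚ`.** Let `p` be a prime, and let `H F i V` and `O b m X` have
the known properties of the étale cohomology groups `H^i(V̄, ℚ_p)` and
`gr^W_0 H_{m + 2 b}(X̄, ℚ_p(b))`. Let `s ≥ 1` be an arbitrary fixed number. The following assertions are
equivalent:
* for all number fields `F`, all smooth proper `V` over `F` and all `i`, the representation
  `H^i(V̄, ℚ_p)` of `G_F` is semisimple (this is the assertion Q1 for `p`);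
* for all smooth proper `V` over `ℚ`, the representations `H^i(V̄, ℚ_p)` of `G_ℚ` with `i` even are
  semisimple;
* for all separated schemes `X` of finite type over `ℚ` the representations
  `gr^W_0 H_{m + 2 b}(X̄, ℚ_p(b))` are semisimple;
* for all closed subvarieties `Z_T` of the affine spaces over `ℚ` which are given by a finite number of
  bilinear equations with coefficients `0` and `1`, the representations `gr^W_0 H_{2 b}(Z̄_T, ℚ_p(b))` are
  semisimple;
* for all finite sets `S` of triples and all `j ≥ s` the representation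
  `gr^W_0 H^{2 j - 1}(Ȳ_S, ℚ_p(j))` of `G_ℚ` is semisimple. -/
theorem result (p : ℕ) [Fact p.Prime]
    (H : ∀ (F : Type) [Field F] [NumberField F], ℕ → Sch F →
      ModuleCat.{w'} (MonoidAlgebra ℚ_[p] (Field.absoluteGaloisGroup F)))
    (O : ℤ → ℤ → Sch ℚ → ModuleCat.{w} (MonoidAlgebra ℚ_[p] (Field.absoluteGaloisGroup ℚ)))
    (hO : IsEtale H O) (s : ℕ) (hs : 1 ≤ s) :
    List.TFAE [
      ∀ (F : Type) [Field F] [NumberField F] (V : Sch F) (i : ℕ), FT True V → Smooth V.hom →
        IsProper V.hom → Semisimple (H F i V),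
      ∀ (V : Sch ℚ) (i : ℕ), FT True V → Smooth V.hom → IsProper V.hom →
        Semisimple (H ℚ (2 * i) V),
      ∀ (X : Sch ℚ) (b m : ℤ), FT True X → Semisimple (O b m X),
      ∀ (a₁ a₂ a₃ : ℕ) (T : Fin a₁ → Fin a₂ → Fin a₃ → ℚ), (∀ i j l, T i j l = 0 ∨ T i j l = 1) →
        ∀ b : ℤ, Semisimple (O b 0 (bilS T)),
      ∀ (a₁ a₂ a₃ : ℕ) (S : Finset (Fin a₁ × Fin a₂ × Fin a₃)) (j : ℕ), s ≤ j →
        Semisimple (O (a₁ + a₂ + a₃ - 1 - j) 1 (tripS ℚ S))] := by
  have hV : (∀ (V : Sch ℚ) (b : ℤ), FT True V → Smooth V.hom → IsProper V.hom →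
      Semisimple (O b 0 V)) → ∀ (X : Sch ℚ) (b m : ℤ), FT True X → Semisimple (O b m X) := by
    intro h X b m hX
    obtain ⟨V, b', h1, h2, h3, h4⟩ := hO.pure b m X hX
    exact inherited _ _ h4 (h V b' h1 h2 h3)
  have h := main hO.toIsAbTheory.isTheory hO.torsor hO.jouanolou inherited.{w} 0 s
    (fun j hj => ⟨hO.point _ _ (by omega), hO.point _ _ (by omega)⟩)
    (fun h X b hX => hV h X b 0 hX)
    (Q := True) (fun _ => presents_rat ⟨RingEquiv.refl ℚ⟩)
  have h2 := h.2 trivial
  tfae_have 1 → 2 := fun h V i h1 h2 h3 => h ℚ V (2 * i) h1 h2 h3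
  tfae_have 2 → 3 := fun h => hV fun V b h1 h2 h3 => hO.compare V b h1 h2 h3 fun i => h V i h1 h2 h3
  tfae_have 3 → 4 := fun h a₁ a₂ a₃ T _ b => h _ _ _ (ft_aff True)
  tfae_have 4 → 5 := (h2.out 1 2).mp
  tfae_have 5 → 1 := by
    intro h F _ _ V i h1 h3 h4
    obtain ⟨V', b, h5, h6, h7, h8⟩ := hO.restrict F V i h1 h3 h4
    have h9 : ∀ (V : Sch ℚ) (b : ℤ), FT True V → Smooth V.hom → IsProper V.hom →
        Semisimple (O b 0 V) := (h2.out 2 0).mp h
    exact h8 (h9 V' b h5 h6 h7)
  tfae_finish

end Pool.Agent.Results.MP_8f1292_ag.CubicHypersurfaces
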