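import Mathlib
import Pool.Agent.U282.ZL.Mo4

/-!
# Semisimplicity is decided by one pairing of Tate classes

Let `X` be a smooth projective variety over a number field, `Γ` its Galois group, `V = H^i(X)` with
coefficients in an algebraic closure `K` of `ℚ_p`, `b` the dimension of `V`, with the pairing
`V × V → K(-i)` given by Poincaré duality and a Lefschetz class.  The Künneth component
`V^{⊗ 2n}` of `H^{2ni}(X^{2n})` carries the product pairing.  Its Tate classes are the classes on
which `Γ` acts through `K(-ni)`.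

The determinant of a stable subspace `W` of `V` is pure of weight `i * dim W`.  Over `ℚ` (to which
every number field is reduced by restriction of scalars) it is therefore a power of the cyclotomic
character times a character of finite order, so there is `m ≥ 1` with
`det (W) ^ {2m} = K(-i)^{m * dim W}` for all `W`; after a finite extension `m = 1`.

Then `V` is semisimple if and only if the Tate classes of the component `V^{⊗ 2n}` pair perfectly
with each other, for a single `n ≥ m * ⌊b / 2⌋`, and then they do so for all `n`.  So if Tate's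
conjecture, and the equality of homological and numerical equivalence, hold for one power
`X^{2n}`, `n ≥ m * ⌊b / 2⌋`, then `V` is semisimple.
-/

set_option autoImplicit false

namespace Pool.Agent.Results.MP_8f1292_ag.OneTatePairing

open Module Pool.Agent.U282.ZL
open scoped TensorProduct

variable {K Γ V : Type} [Field K] [Group Γ] [AddCommGroup V] [Module K V]

/-- `B` is symmetric for even `i` and alternating for odd `i`. -/
def IsSymmetric (B : V →ₗ[K] V →ₗ[K] K) (i : ℕ) : Prop := ∀ x y, B x y = (-1) ^ i * B y x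

/-- `Γ` scales `B` by the character `χ`. -/
def IsScaled (ρ : Representation K Γ V) (B : V →ₗ[K] V →ₗ[K] K) (χ : Γ →* Kˣ) : Prop :=
  ∀ g x y, B (ρ g x) (ρ g y) = χ g * B x y

/-- `B` is the pairing `V × V → K(-i)` on `V = H^i(X)`, and `χ` is the character of `K(-i)`. -/
structure IsDuality (ρ : Representation K Γ V) (B : V →ₗ[K] V →ₗ[K] K) (i : ℕ)
    (χ : Γ →* Kˣ) : Prop where
  nondegenerate : Function.Injective B
  symmetric : IsSymmetric B i
  equivariant : IsScaled ρ B χ

/-- `κ` is equivariant from the tensor power of `V` to `H`. -/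
def IsEquivariant {H : Type} [AddCommGroup H] [Module K H] {N : ℕ} (ρ : Representation K Γ V)
    (σ : Representation K Γ H) (κ : (⨂[K] _ : Fin N, V) →ₗ[K] H) : Prop :=
  ∀ g t, κ (PiTensorProduct.map (fun _ => ρ g) t) = σ g (κ t)

/-- On the image of `κ` the form `F` is `c` times the product of the forms `B`. -/
def IsProductForm {H : Type} [AddCommGroup H] [Module K H] {N : ℕ} (B : V →ₗ[K] V →ₗ[K] K)
    (F : H →ₗ[K] H →ₗ[K] K) (κ : (⨂[K] _ : Fin N, V) →ₗ[K] H) (c : K) : Prop :=
  ∀ x y : Fin N → V, F (κ (PiTensorProduct.tprod K x)) (κ (PiTensorProduct.tprod K y)) =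
    c * ∏ j, B (x j) (y j)

/-- The cohomology `H = H^{2ni}(X^{2n})` of the power `X^{2n}`, with its Galois action, its
pairing and the Künneth map from `V^{⊗ 2n}`; the constant `scale` is a sign. -/
structure PowerCohomology (ρ : Representation K Γ V) (B : V →ₗ[K] V →ₗ[K] K) (n : ℕ) where
  H : Type
  [addH : AddCommGroup H]
  [modH : Module K H]
  act : Representation K Γ H
  form : H →ₗ[K] H →ₗ[K] K
  kunneth : (⨂[K] _ : Fin (n + n), V) →ₗ[K] H
  scale : K
  injective : Function.Injective kunneth
  kunneth_act : IsEquivariant ρ act kunneth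
  scale_ne_zero : scale ≠ 0
  kunneth_form : IsProductForm B form kunneth scale

attribute [instance] PowerCohomology.addH PowerCohomology.modH

/-- The Tate classes of the Künneth component `V^{⊗ 2n}` of `H^{2ni}(X^{2n})`. -/
def IsTate {ρ : Representation K Γ V} {B : V →ₗ[K] V →ₗ[K] K} {n : ℕ} (χ : Γ →* Kˣ)
    (P : PowerCohomology ρ B n) (z : P.H) : Prop :=
  z ∈ LinearMap.range P.kunneth ∧ ∀ g, P.act g z = (χ g : K) ^ n • z

/-- No nonzero Tate class of the component is orthogonal to all the others. -/
def Perfect {ρ : Representation K Γ V} {B : V →ₗ[K] V →ₗ[K] K} {n : ℕ} (χ : Γ →* Kˣ)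
    (P : PowerCohomology ρ B n) : Prop :=
  ∀ z, IsTate χ P z → (∀ w, IsTate χ P w → P.form z w = 0) → z = 0

/-- `W` is a stable subspace. -/
def IsStable (ρ : Representation K Γ V) (W : Submodule K V) : Prop := ∀ g, ∀ w ∈ W, ρ g w ∈ W

/-- The action on a stable subspace. -/
def restr (ρ : Representation K Γ V) (W : Submodule K V) (hW : IsStable ρ W) (g : Γ) :
    W →ₗ[K] W :=
  (ρ g).restrict (hW g)

/-- The determinant. -/
noncomputable def detEnd {M : Type} [AddCommGroup M] [Module K M] (f : M →ₗ[K] M) : K :=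
  LinearMap.det f

/-- The determinant of the action on a stable subspace. -/
noncomputable def detOn (ρ : Representation K Γ V) (W : Submodule K V) (hW : IsStable ρ W)
    (g : Γ) : K :=
  detEnd (restr ρ W hW g)

/-- `det (W) ^ {2m} = χ ^ {m * dim W}` for all stable subspaces `W` of `V`. -/
def PureDeterminants (ρ : Representation K Γ V) (χ : Γ →* Kˣ) (m : ℕ) : Prop :=
  ∀ W (hW : IsStable ρ W) g, detOn ρ W hW g ^ (2 * m) = (χ g : K) ^ (m * finrank K W)

theorem perfect_iff [FiniteDimensional K V] {ρ : Representation K Γ V}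
    {B : V →ₗ[K] V →ₗ[K] K} {i n : ℕ} {χ : Γ →* Kˣ} (hB : IsDuality ρ B i χ)
    (P : PowerCohomology ρ B n) :
    Perfect χ P ↔ TraceNondeg (tpow ρ n) := by
  rw [← tatePerfect_pow ρ B hB.nondegenerate (fun g => (χ g : K))
    (fun g => (χ g).ne_zero) hB.equivariant ((-1) ^ i)
    (pow_ne_zero _ (neg_ne_zero.2 one_ne_zero)) hB.symmetric n]
  have hform : ∀ t t', P.form (P.kunneth t) (P.kunneth t') =
      P.scale * formPow B (n + n) t t' := by
    intro t t'
    have h : (P.form.compl₂ P.kunneth) ∘ₗ P.kunneth = P.scale • formPow B (n + n) := by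
      apply bil_ext
      intro a b
      show P.form (P.kunneth (PiTensorProduct.tprod K a))
        (P.kunneth (PiTensorProduct.tprod K b)) = _
      rw [P.kunneth_form, ← formPow_tprod]
      rfl
    exact LinearMap.congr_fun (LinearMap.congr_fun h t) t'
  have hT : ∀ t, (∀ g, tpow ρ (n + n) g t = (χ g : K) ^ n • t) ↔
      IsTate χ P (P.kunneth t) := by
    intro t
    constructor
    · intro h
      refine ⟨⟨t, rfl⟩, fun g => ?_⟩
      rw [← P.kunneth_act, ← map_smul, ← h g]
      rfl
    · rintro ⟨_, h⟩ g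
      apply P.injective
      rw [map_smul, ← h g, ← P.kunneth_act]
      rfl
  constructor
  · intro h t ht hF
    apply P.injective
    rw [map_zero]
    refine h _ ((hT t).1 ht) ?_
    rintro _ ⟨⟨t', rfl⟩, ht'⟩
    rw [hform, hF t' ((hT t').2 ⟨⟨t', rfl⟩, ht'⟩), mul_zero]
  · rintro h _ ⟨⟨t, rfl⟩, ht⟩ hF
    rw [h t ((hT t).2 ⟨⟨t, rfl⟩, ht⟩), map_zero]
    intro t' ht'
    have h1 := hF _ ((hT t').1 ht')
    rw [hform] at h1
    exact (mul_eq_zero.1 h1).resolve_left P.scale_ne_zero

theorem result [CharZero K] [IsAlgClosed K] [FiniteDimensional K V] (ρ : Representation K Γ V)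
    (B : V →ₗ[K] V →ₗ[K] K) (i : ℕ) (χ : Γ →* Kˣ) (hB : IsDuality ρ B i χ)
    (P : ∀ n, PowerCohomology ρ B n)
    (m : ℕ) (hm : 0 < m) (hD : PureDeterminants ρ χ m) (n : ℕ) (hn : m * (finrank K V / 2) ≤ n) :
    (SSRep ρ ↔ Perfect χ (P n)) ∧ (Perfect χ (P n) ↔ ∀ n', Perfect χ (P n')) := by
  have h1 : SSRep ρ → ∀ n', Perfect χ (P n') := fun h n' =>
    (perfect_iff hB (P n')).2 (chevalley ρ h n').traceNondeg
  have h2 : Perfect χ (P n) → SSRep ρ := fun h =>
    ss_of_trace ρ B hB.nondegenerate (fun g => (χ g : K)) hB.equivariant m hm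
      hD n hn ((perfect_iff hB (P n)).1 h)
  exact ⟨⟨fun h => h1 h n, h2⟩, fun h => h1 (h2 h), fun h => h n⟩

end Pool.Agent.Results.MP_8f1292_ag.OneTatePairing
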