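import Mathlib
import Pool.Agent.U175.LP.R11

/-!
# Semisimplicity at every prime number from the Lie algebra of the image modulo one prime number

Let `M` be a pure motive over `ℚ` of weight `w > 0` and rank `n`, with a polarization (symmetric or
alternating; for instance the middle cohomology of a smooth projective variety, or its primitive
part), or the restriction of scalars of such a motive over a number field. Its realizations are a pure
system of representations `ρ ℓ` of the Galois group of `ℚ` (`IsPureSystem`; `Γ` is the Galois group of `ℚ`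
and `θ` is the identity; as for other results of this kind `Γ` may also be the fundamental group of a
variety with a rational point).

Let `p ≥ 5` be ONE prime number, `ℤ_p ^ n` a lattice in the `p`-adic realization which is stable under
Galois and on which a multiple of the polarization is unimodular (`IsUnimodularLattice`), and `G` the
image of the Galois group in `GL (n, ℤ / p)`, a finite group. Let `𝔫` be the Lie algebra over `ℤ / p`
which is generated by the logarithms `∑ (-1)^(j+1) (u - 1)^j / j`, `1 ≤ j < p`, of the elements `u` of `G` with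
`(u - 1) ^ ((p - 1) / 2) = 0` (`residualLieAlgebra`). If `p > 2 n` these are all the elements of order `p` of
`G`, and `𝔫` is the Lie algebra which Nori attaches to `G`; for all `p ≥ 5` the elements with
`(u - 1) ^ 2 = 0` are admitted (transvections, long root elements of orthogonal groups and of all
classical groups and of their spin representations, ...), with logarithm `u - 1`.

**Theorem.** Suppose that over some field `k` of characteristic `p` a combination `X` of elements of `𝔫` has
no isotropic relation between its eigenvalues: they are simple, and the sum of the numbers in a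
nonempty set of eigenvalues which does not contain `t` and `-t` is never zero. Then for EVERY prime
number `ℓ` the representation `ρ ℓ` is semisimple, for all subgroups `U` of finite index, and so are all
its subrepresentations `V` for `U`.

For example the hypothesis is satisfied if `𝔫` contains over `k` a torus of the maximal rank `m`,
`n = 2 m` or `n = 2 m + 1` (take `k` infinite; the eigenvalues are `± t_i`, `0`, and the `t_i` may be taken
linearly independent over `ℤ / p`); so

* for an alternating form and all `n`, if `G` contains `Sp (n, ℤ / p)`, or only the product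
  of symplectic groups of an orthogonal decomposition (for restrictions of scalars);
* for a symmetric form (even weight), if `G` contains the group `Ω (n, ℤ / p)` of a form of Witt index at
  least two, or products of such groups with at most one factor of odd dimension;

and also for groups of small rank, for instance for the symmetric powers of odd degree `d` of
`SL (2, ℤ / p)`, `p > 2 (d + 1) (d + 2)`. There is no hypothesis on the `p`-adic image, on other prime
numbers, on Frobenius polynomials or on Hodge numbers, and `p` may be small compared with `n` in the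
first two cases. So the conjecture of Grothendieck and Serre follows, for all prime numbers without
exception, from the structure of one finite Galois group. The known results of this kind need
the `p`-adic Lie algebra, or elements of the `p`-adic image, or the image modulo two for alternating forms
(library `N171.TG`, `R932.SQ`).

Proof. (1) Let `g` be a Galois element which acts as `u` modulo `p`, `(u - 1) ^ k = 0`, `2 k < p`. Its
multiplier is `1` modulo `p` (`mult_one`). With `N = R g - 1` all the terms of
`R g ^ p = ∑ (p choose j) N ^ j` with `j < p` are divisible by `p` and `N ^ p` by `p ^ 2`, and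
`(p choose j) / p` is `(-1)^(j+1) / j` modulo `p`; so `R g ^ p = 1 + p Y` with `Y` congruent to the logarithm
of `u` modulo `p` (`nlog_pow`). The logarithm of `g ^ p` shows that `log u` is the reduction of an
element of the `p`-adic Lie algebra `𝔤` (the saturated one, of tangent vectors) with multiplier divisible
by `p` (`nlog_mem`). Hence `𝔫` consists of such reductions. (2) Let `X = ∑ x_i Y_i` with `Y_i` in `𝔫`. Lift
`Y_i` to elements `Z_i` of `𝔤`, and subtract scalars to make the multipliers zero. The characteristic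
polynomial of an infinitesimal isometry is `T ^ r Q (T ^ 2)` with `r ≤ 1`; if the roots of `Q` are the
`a_k ^ 2`, the product `Φ` of all the `∑ ε_k a_k`, `ε_k` in `{0, 1, -1}` not all zero, is a polynomial with
integral coefficients in the coefficients of `Q`. The polynomial `F (t) = Φ (charpoly (∑ t_i Z_i))` over
`ℤ_p` is not zero, since its reduction at the point `x` is `Φ (charpoly X) ≠ 0`. Hence `F (t) ≠ 0` for some
`t` in `ℤ_p`, and `∑ t_i Z_i` has no isotropic relation (`exists_noRel_lie`). (3) Now the theorem of the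
starting library `Pool.Agent.R932.SQ` (from one such element of the Lie algebra at one prime number to
semisimplicity at all prime numbers) and Clifford's and Maschke's theorems apply.
-/

set_option autoImplicit false

namespace Pool.Agent.Results.MP_8f1292_ag.ResidualLieAlgebra

open Matrix Polynomial Filter Topology NumberField IsDedekindDomain

/-- the absolute Galois group, with the profinite (Krull) topology -/
abbrev AbsoluteGaloisGroup (K : Type) [Field K] : Type := Gal(AlgebraicClosure K/K)

/-- `σ` is a Frobenius element at the prime `v` of `K`: there is a maximal ideal `Q` above `v` of the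
ring of all algebraic integers with `σ x ≡ x ^ N(v)` modulo `Q` for all `x` -/
def IsFrobenius {K : Type} [Field K] [NumberField K] (v : HeightOneSpectrum (𝓞 K))
    (σ : AbsoluteGaloisGroup K) : Prop :=
  ∃ Q : Ideal (𝓞 (AlgebraicClosure K)), Q.IsMaximal ∧
    Q.comap (algebraMap (𝓞 K) (𝓞 (AlgebraicClosure K))) = v.asIdeal ∧
    ∀ x : 𝓞 (AlgebraicClosure K), σ • x - x ^ Ideal.absNorm v.asIdeal ∈ Q

/-- Representations `ρ ℓ` of a group `Γ` on the `n`-dimensional spaces over the fields of `ℓ`-adic
numbers, for all prime numbers `ℓ`, and a homomorphism `θ` from the absolute Galois group of `ℚ` to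
`Γ`, such that
* `ρ ℓ` is continuous on the Galois group of `ℚ`,
* `Γ` acts by similitudes, with factor `χ ℓ`, of the nondegenerate symmetric or alternating form with
  matrix `J ℓ`,
* the representations are pure of weight `w` and form a compatible system: outside of the finite set
  `S` of places the inverse of a Frobenius element at `v` acts for all `ℓ` not divisible by `v` with the
  characteristic polynomial `P v`, which has integral coefficients and complex roots of absolute value
  `N(v) ^ (w / 2)`, and with similitude factor `N(v) ^ w`. -/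
structure IsPureSystem {Γ : Type} [Group Γ] (θ : AbsoluteGaloisGroup ℚ →* Γ) (n w : ℕ)
    (S : Set (HeightOneSpectrum (𝓞 ℚ))) (P : HeightOneSpectrum (𝓞 ℚ) → ℤ[X])
    (ρ : ∀ (ℓ : ℕ) [Fact ℓ.Prime], Γ →* Matrix (Fin n) (Fin n) ℚ_[ℓ])
    (J : ∀ (ℓ : ℕ) [Fact ℓ.Prime], Matrix (Fin n) (Fin n) ℚ_[ℓ])
    (χ : ∀ (ℓ : ℕ) [Fact ℓ.Prime], Γ → ℚ_[ℓ]) : Prop where
  finite : S.Finite
  monic : ∀ v ∉ S, (P v).Monic
  weight : ∀ v ∉ S, ∀ z : ℂ, aeval z (P v) = 0 → ‖z‖ ^ 2 = (Ideal.absNorm v.asIdeal : ℝ) ^ w
  continuous : ∀ (ℓ : ℕ) [Fact ℓ.Prime], Continuous fun g => ρ ℓ (θ g)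
  symm_or_alt : ∀ (ℓ : ℕ) [Fact ℓ.Prime], (J ℓ)ᵀ = J ℓ ∨ (J ℓ)ᵀ = -J ℓ
  nondegenerate : ∀ (ℓ : ℕ) [Fact ℓ.Prime], (J ℓ).det ≠ 0
  similitude : ∀ (ℓ : ℕ) [Fact ℓ.Prime] (g : Γ), (ρ ℓ g)ᵀ * J ℓ * ρ ℓ g = χ ℓ g • J ℓ
  charpoly : ∀ (ℓ : ℕ) [Fact ℓ.Prime], ∀ v ∉ S, (ℓ : 𝓞 ℚ) ∉ v.asIdeal →
    ∀ σ : AbsoluteGaloisGroup ℚ, IsFrobenius v σ →
      (ρ ℓ (θ σ⁻¹)).charpoly = (P v).map (algebraMap ℤ ℚ_[ℓ])
  factor : ∀ (ℓ : ℕ) [Fact ℓ.Prime], ∀ v ∉ S, (ℓ : 𝓞 ℚ) ∉ v.asIdeal →
    ∀ σ : AbsoluteGaloisGroup ℚ, IsFrobenius v σ →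
      χ ℓ (θ σ⁻¹) = (Ideal.absNorm v.asIdeal : ℚ_[ℓ]) ^ w

/-- The action of the Galois group of `ℚ` preserves the lattice `ℤ_p ^ n`, where it is given by the
matrices `R g`, and the form is a nonzero multiple of the form with the unimodular matrix `B`. -/
structure IsUnimodularLattice {Γ : Type} [Group Γ] (θ : AbsoluteGaloisGroup ℚ →* Γ) {n p : ℕ}
    [Fact p.Prime] (ρ : Γ →* Matrix (Fin n) (Fin n) ℚ_[p]) (J : Matrix (Fin n) (Fin n) ℚ_[p])
    (R : AbsoluteGaloisGroup ℚ →* Matrix (Fin n) (Fin n) ℤ_[p])
    (B : Matrix (Fin n) (Fin n) ℤ_[p]) : Prop where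
  act : ∀ g, ρ (θ g) = (R g).map (algebraMap ℤ_[p] ℚ_[p])
  form : ∃ c : ℚ_[p], c ≠ 0 ∧ J = c • B.map (algebraMap ℤ_[p] ℚ_[p])
  unimodular : IsUnit B.det

/-- The logarithm of a unipotent matrix modulo `p`: the sum of `(-1) ^ (j + 1) (u - 1) ^ j / j` for
`1 ≤ j < p`. -/
def unipotentLog {n p : ℕ} [Fact p.Prime] (u : Matrix (Fin n) (Fin n) (ZMod p)) :
    Matrix (Fin n) (Fin n) (ZMod p) :=
  ∑ j ∈ Finset.Ico 1 p, ((-1) ^ (j + 1) * ((j : ℕ) : ZMod p)⁻¹) • (u - 1) ^ j

/-- The Lie algebra modulo `p` of the image modulo `p` of the representation `R`: the smallest subspace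
of the space of matrices over `ℤ / p` which is closed under commutators and contains the logarithms
of the elements `u` of the image modulo `p` with `(u - 1) ^ ((p - 1) / 2) = 0`. -/
def residualLieAlgebra {n p : ℕ} [Fact p.Prime] {G : Type} [Group G]
    (R : G →* Matrix (Fin n) (Fin n) ℤ_[p]) : Submodule (ZMod p) (Matrix (Fin n) (Fin n) (ZMod p)) :=
  sInf {L | {X | ∃ g, ((R g).map PadicInt.toZMod - 1) ^ ((p - 1) / 2) = 0 ∧
      X = unipotentLog ((R g).map PadicInt.toZMod)} ⊆ (L : Set (Matrix (Fin n) (Fin n) (ZMod p))) ∧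
    ∀ X ∈ L, ∀ Y ∈ L, X * Y - Y * X ∈ L}

/-- There is no isotropic relation between the roots of the polynomial `Q`: they are simple, and a
nonempty set of roots which does not contain `t` and `-t` has a nonzero sum. -/
def NoIsotropicRelation {k : Type} [Field k] (Q : k[X]) : Prop :=
  Q.Separable ∧ ∀ I : Finset (AlgebraicClosure k), I.Nonempty →
    (∀ t ∈ I, aeval t Q = 0 ∧ -t ∉ I) → ∑ t ∈ I, t ≠ 0

/-- the subspace `W` is stable under the subgroup `U` -/
def IsStable {F : Type} [Field F] {n : ℕ} {Γ : Type} [Group Γ] (ρ : Γ →* Matrix (Fin n) (Fin n) F)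
    (U : Subgroup Γ) (W : Submodule F (Fin n → F)) : Prop :=
  ∀ g ∈ U, ∀ x ∈ W, ρ g *ᵥ x ∈ W

/-- the subrepresentation `V` of the restriction to `U` is semisimple: every stable subspace of `V`
has a stable complement in `V` -/
def IsSemisimpleOn {F : Type} [Field F] {n : ℕ} {Γ : Type} [Group Γ]
    (ρ : Γ →* Matrix (Fin n) (Fin n) F) (U : Subgroup Γ) (V : Submodule F (Fin n → F)) : Prop :=
  ∀ W ≤ V, IsStable ρ U W → ∃ W' ≤ V, IsStable ρ U W' ∧ W ⊓ W' = ⊥ ∧ W ⊔ W' = V

/-- **Semisimplicity at every prime number from the Lie algebra of the image modulo one prime.** -/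
theorem result {Γ : Type} [Group Γ] (θ : AbsoluteGaloisGroup ℚ →* Γ) {n w : ℕ} (hw : 0 < w)
    (S : Set (HeightOneSpectrum (𝓞 ℚ))) (P : HeightOneSpectrum (𝓞 ℚ) → ℤ[X])
    (ρ : ∀ (ℓ : ℕ) [Fact ℓ.Prime], Γ →* Matrix (Fin n) (Fin n) ℚ_[ℓ])
    (J : ∀ (ℓ : ℕ) [Fact ℓ.Prime], Matrix (Fin n) (Fin n) ℚ_[ℓ])
    (χ : ∀ (ℓ : ℕ) [Fact ℓ.Prime], Γ → ℚ_[ℓ]) (h : IsPureSystem θ n w S P ρ J χ)
    -- the lattice and the hypothesis on the image modulo the prime number `p`
    {p : ℕ} [Fact p.Prime] (hp : 5 ≤ p)
    (R : AbsoluteGaloisGroup ℚ →* Matrix (Fin n) (Fin n) ℤ_[p]) (B : Matrix (Fin n) (Fin n) ℤ_[p])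
    (hB : IsUnimodularLattice θ (ρ p) (J p) R B) {k : Type} [Field k] [Algebra (ZMod p) k]
    (X : Matrix (Fin n) (Fin n) k)
    (hX : X ∈ Submodule.span k {Z | ∃ Y ∈ residualLieAlgebra R, Z = Y.map (algebraMap (ZMod p) k)})
    (hrel : NoIsotropicRelation X.charpoly) :
    -- semisimplicity at every prime number
    ∀ (ℓ : ℕ) [Fact ℓ.Prime] (U : Subgroup Γ), U.FiniteIndex →
      ∀ V : Submodule ℚ_[ℓ] (Fin n → ℚ_[ℓ]), IsStable (ρ ℓ) U V → IsSemisimpleOn (ρ ℓ) U V := by
  intro ℓ hℓ U hU V hV W hWV hW
  exact (Pool.Agent.U175.LP.ss_lie (Module.finrank_self ℚ) θ hw h.finite P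
    (fun v hv => ⟨h.monic v hv, h.weight v hv⟩) ρ (fun ℓ _ => h.continuous ℓ) J
    (fun ℓ _ => h.symm_or_alt ℓ) (fun ℓ _ => h.nondegenerate ℓ) χ (fun ℓ _ => h.similitude ℓ)
    (fun ℓ _ v hv hvℓ σ hσ => ⟨h.charpoly ℓ v hv hvℓ σ hσ, h.factor ℓ v hv hvℓ σ hσ⟩)
    (by omega) R B hB.act hB.form hB.unimodular (fun X hX => hX) hX hrel ℓ U hU).sub hV hW hWV

end Pool.Agent.Results.MP_8f1292_ag.ResidualLieAlgebra
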