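import Pool.Agent.U926.SF.GaloisMain

/-!
# The Grothendieck-Serre semisimplicity conjecture for sums of forms in separate variables

Let `F` be a number field, `V` a smooth projective variety over a finite extension `L₀` of `F` and
`X` its base change to the algebraic closure. Suppose that `X` is a hypersurface
`g_0(x^(0)) + ⋯ + g_r(x^(r)) = 0`, where the `g_l` are nonsingular forms of degree `d ≥ 2` in separate
sets of variables:

* `d = 3`: cubic forms in at most six variables each;
* `d = 4`: quartic forms in at most four variables each;
* any `d`: forms in at most two variables each;

there is no restriction on the number of the forms, so the dimension of `X` is arbitrary. (The forms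
`g_l` need not be defined over `L₀`: for instance they may be conjugate forms, so that the equation of
`V` is a trace.)

**Theorem.** For every prime `p` and all `i` the representation of the Galois group of `L₀`, and of
every finite extension of `L₀`, on `H^i(X, ℚ_p)` is semisimple. The same is true if `X` is a product
of such hypersurfaces (of any degrees) with abelian varieties, curves, K3 surfaces and all other
varieties with motives of abelian type, and for every variety `X` which is built from such products:
for example for the coverings `w ^ m = F(x)` of the projective space, `m` a divisor of `d`, for all
quotients and images under generically finite morphisms, for the blow-ups of such products in such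
products, projective bundles over them, and the Hilbert schemes of points on surfaces of this kind.

Faltings' theorem is the case of abelian varieties. For the Fermat hypersurfaces (all `g_l` in one
variable) the cohomology is a sum of Jacobi sum characters, and if all `g_l` have at most two variables
the hypersurface is dominated by a product of curves (Katsura and Shioda). If there are `g_l` in at
least three variables, `r > 0`, the theorem is new as far as I know. For example let `f`, `g` be
any two nonsingular cubic forms in six variables: the middle cohomology of the cubic hypersurface
`f(x) + g(y) = 0` of dimension ten contains the tensor product of the primitive cohomology groups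
of the cubic fourfolds `f = 0`, `g = 0`, and the general hypersurface of this kind has neither
complex multiplication nor other endomorphisms; its primitive cohomology has large level.

The setting: `𝒱` is a class of smooth proper varieties over the algebraic closure of `F`, closed
under products; `H` is the `p`-adic cohomology; `A.act m g` is the action of `g` on `H(X)` for a model
`m` of `X`; `C` is a theory of absolutely Hodge cycles, for instance the spaces of all absolutely
Hodge classes, or the motivated cycles. The known theorems which are used:

* the formal properties of the Galois actions (`IsGaloisTheory`; absolutely Hodge classes are
  invariant under open subgroups), of absolutely Hodge classes (`IsChowProj`) and of the `p`-adic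
  cohomology (`IsWeilProj`);
* `hT`, the theorem of Katsura and Shioda: `f(x) + g(y) = 0` is dominated by the product of
  `f(x) + z ^ d = 0` and `g(y) + w ^ d = 0`, blown up in the product of `f(x) = 0` and `g(y) = 0`;
* `hK`: the motives for absolutely Hodge cycles of plane curves, cubic hypersurfaces of dimension
  at most five and quartic hypersurfaces of dimension at most three are of abelian type (Deligne;
  André for cubic fourfolds; K3 surfaces by the construction of Kuga and Satake; otherwise the
  Hodge structures have level at most one);
* `hF`: the theorem of Faltings (with the semisimplicity of tensor products).

The proof: `f + g` is built from `f + z ^ d`, `g + w ^ d`, `f`, `g`, and `(f + g) + z ^ d` is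
`f + (g + z ^ d)`, where `(g + z ^ d) + w ^ d` is built from `g + z ^ d`, `g` and Fermat curves; so the
class of the forms `g` for which `g = 0` and `g + z ^ d = 0` are built from abelian varieties is closed
under sums in separate variables. The cohomology of a variety which is built from others is, over
a finite extension, a sum of images of twisted semisimple representations
(`IsSemisimpleOn.of_sum`), and semisimplicity descends from subgroups of finite index
(`IsSemisimpleOn.of_le`).
-/

set_option autoImplicit false

open CategoryTheory AlgebraicGeometry MvPolynomial

universe u v

namespace Pool.Agent.Results.MP_8f1292_ag.SumsOfForms

open Pool.Agent.H914 Pool.Agent.H914.VarClass Pool.Agent.H914.VarClass.Obj Pool.Agent.W492.BB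
  Pool.Agent.TH133 Pool.Agent.U926.SF

/-- **The semisimplicity conjecture of Grothendieck and Serre** for the hypersurfaces
`g_0 + ⋯ + g_r = 0` with equations in separate sets of variables, for their products with varieties
with motives of abelian type, and for all varieties which are built from these products. -/
theorem result {F : Type u} [Field F] [NumberField F] {𝒱 : VarClass (AlgebraicClosure F)}
    {C : TheoryData.{u, v, 0} 𝒱 ℚ} [IsChowProj C] {p : ℕ} [Fact p.Prime]
    {H : WeilTheoryData.{u, v, 0} C ℚ_[p]} [IsWeilProj H] (A : GaloisActions F H)
    (hA : A.IsGaloisTheory) (T : Hypersurfaces 𝒱)
    (hT : ∀ d : ℕ, 2 ≤ d → IsKatsuraShioda C T d) (hK : KnownTypesAreAbelian C T)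
    (hF : ∀ B : 𝒱.Obj, IsAbelianVariety B → HasSemisimpleCohomology A B)
    (X : 𝒱.Obj) (hX : IsBuiltFrom C (IsSumProduct C T) X) : HasSemisimpleCohomology A X :=
  .of_isBuiltFrom hA (fun _ hY => .of_isBuiltFrom hA hF (hY.isBuiltFrom hT hK)) hX

end Pool.Agent.Results.MP_8f1292_ag.SumsOfForms
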